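import Mathlib

/-!
Definitions: almost disjoint families, Isbell–Mrówka spaces, the star-Rothberger property, the
cardinals `cov(M)`, `d` and `cof([κ]^ℵ₀)`.
-/

namespace Pool.Agent.StarRoth

open Cardinal

/-- An almost disjoint family: infinite subsets of `ℕ`, any two distinct ones having finite
intersection. -/
def IsAD (A : Set (Set ℕ)) : Prop :=
  (∀ a ∈ A, a.Infinite) ∧ ∀ a ∈ A, ∀ b ∈ A, a ≠ b → (a ∩ b).Finite

/-- The underlying set `ℕ ∪ A` (disjoint union) of the Isbell–Mrówka space. -/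
def Psi (A : Set (Set ℕ)) : Type := ℕ ⊕ A

/-- The point of `Psi A` given by a natural number. -/
def Psi.nat {A : Set (Set ℕ)} (n : ℕ) : Psi A := Sum.inl n

/-- The point of `Psi A` given by a member of `A`. -/
def Psi.mem {A : Set (Set ℕ)} (a : A) : Psi A := Sum.inr a

/-- The topology of the Isbell–Mrówka space: `U` is open iff for every `a ∈ A` lying in `U`,
all but finitely many elements of `a` lie in `U`. -/
instance Psi.topology (A : Set (Set ℕ)) : TopologicalSpace (Psi A) where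
  IsOpen U := ∀ a : A, Psi.mem a ∈ U → {n : ℕ | n ∈ (a : Set ℕ) ∧ Psi.nat n ∉ U}.Finite
  isOpen_univ := by
    intro a _
    simp
  isOpen_inter := by
    intro U V hU hV a ha
    refine ((hU a ha.1).union (hV a ha.2)).subset ?_
    rintro n ⟨hn, hn'⟩
    by_cases h : Psi.nat n ∈ U
    · exact Or.inr ⟨hn, fun h' => hn' ⟨h, h'⟩⟩
    · exact Or.inl ⟨hn, h⟩
  isOpen_sUnion := by
    intro S hS a ha
    obtain ⟨U, hU, haU⟩ := ha
    refine (hS U hU a haU).subset ?_
    rintro n ⟨hn, hn'⟩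
    exact ⟨hn, fun h => hn' ⟨U, hU, h⟩⟩

/-- The star of `U` with respect to the family `𝒰`. -/
def star {X : Type} (U : Set X) (𝒰 : Set (Set X)) : Set X :=
  ⋃₀ {V : Set X | V ∈ 𝒰 ∧ (V ∩ U).Nonempty}

/-- `𝒰` is an open cover of `X`. -/
def IsOpenCover {X : Type} [TopologicalSpace X] (𝒰 : Set (Set X)) : Prop :=
  (∀ U ∈ 𝒰, IsOpen U) ∧ ⋃₀ 𝒰 = Set.univ

/-- The star-Rothberger property. -/
def StarRothberger (X : Type) [TopologicalSpace X] : Prop :=
  ∀ 𝒰 : ℕ → Set (Set X), (∀ n, IsOpenCover (𝒰 n)) →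
    ∃ U : ℕ → Set X, (∀ n, U n ∈ 𝒰 n) ∧ ⋃ n, star (U n) (𝒰 n) = Set.univ

/-- `cov(M)`: the least cardinality of a family `F` of functions such that for each `g` some
`f ∈ F` agrees with `g` only finitely often. -/
noncomputable def covM : Cardinal.{0} :=
  sInf {κ | ∃ F : Set (ℕ → ℕ), #F = κ ∧ ∀ g : ℕ → ℕ, ∃ f ∈ F, {n | f n = g n}.Finite}

/-- The dominating number `d`: the least cardinality of a family `F` of functions such that each
`g` is eventually bounded by some `f ∈ F`. -/
noncomputable def dNum : Cardinal.{0} :=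
  sInf {κ | ∃ F : Set (ℕ → ℕ), #F = κ ∧ ∀ g : ℕ → ℕ, ∃ f ∈ F, {n | f n < g n}.Finite}

/-- `cof([κ]^ℵ₀)`: the least size of a family of countable subsets of `κ` such that every
countable subset of `κ` is contained in some member of the family. -/
noncomputable def cofCtbl (κ : Cardinal.{0}) : Cardinal.{0} :=
  sInf {μ | ∃ S : Set (Set κ.out), #S = μ ∧ (∀ s ∈ S, s.Countable) ∧
    ∀ t : Set κ.out, t.Countable → ∃ s ∈ S, t ⊆ s}

end Pool.Agent.StarRoth
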