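import Mathlib
import Pool.Agent.Lib.MP_a1c723_lc.Defs

/-!
Existence of Luzin families.
-/

namespace Pool.Agent.StarRoth

open Cardinal Set

/-- The basic diagonal construction. -/
theorem ext_lemma {J : Type} [Countable J] [Infinite J] (B : J → Set ℕ)
    (hinf : ∀ j, (B j).Infinite) (had : ∀ i j, i ≠ j → (B i ∩ B j).Finite) :
    ∃ C : Set ℕ, C.Infinite ∧ (∀ j, (C ∩ B j).Finite) ∧ ∀ k : ℕ, {j | C ∩ B j ⊆ Iio k}.Finite := by
  classical
  obtain ⟨e⟩ : Nonempty (ℕ ≃ J) := by
    obtain ⟨_⟩ := nonempty_denumerable J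
    exact ⟨(Denumerable.eqv J).symm⟩
  have hx : ∀ n : ℕ, ∃ x, x ∈ B (e n) ∧ n ≤ x ∧ ∀ i < n, x ∉ B (e i) := by
    intro n
    have h1 : ((⋃ i ∈ Finset.range n, B (e n) ∩ B (e i)) ∪ Iio n).Finite := by
      refine Set.Finite.union ?_ (Set.finite_Iio n)
      refine Set.Finite.biUnion (Finset.finite_toSet _) fun i hi => ?_
      apply had
      intro h
      have := e.injective h
      simp at hi
      omega
    obtain ⟨x, hx1, hx2⟩ := (hinf (e n)).exists_notMem_finite h1
    refine ⟨x, hx1, ?_, fun i hi hxi => hx2 ?_⟩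
    · by_contra h
      exact hx2 (Or.inr (not_le.1 h))
    · refine Or.inl ?_
      simp only [Set.mem_iUnion]
      exact ⟨i, Finset.mem_range.2 hi, hx1, hxi⟩
  choose x hx1 hx2 hx3 using hx
  have hinj : Function.Injective x := by
    intro a b hab
    rcases lt_trichotomy a b with h | h | h
    · exact absurd (hab ▸ hx1 a) (hx3 b a h)
    · exact h
    · exact absurd (hab.symm ▸ hx1 b) (hx3 a b h)
  refine ⟨Set.range x, Set.infinite_range_of_injective hinj, fun j => ?_, fun k => ?_⟩
  · obtain ⟨n, rfl⟩ := e.surjective j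
    refine ((Set.finite_Iic n).image x).subset ?_
    rintro _ ⟨⟨m, rfl⟩, hm⟩
    refine ⟨m, ?_, rfl⟩
    by_contra h
    exact hx3 m n (not_le.1 h) hm
  · refine ((Set.finite_Iio k).image e).subset ?_
    intro j hj
    obtain ⟨n, rfl⟩ := e.surjective j
    refine ⟨n, ?_, rfl⟩
    have : x n ∈ Iio k := hj ⟨⟨n, rfl⟩, hx1 n⟩
    exact lt_of_le_of_lt (hx2 n) this

/-- the base partition -/
def PP (n : ℕ) : Set ℕ := {m | m.unpair.1 = n}

theorem PP_infinite (n : ℕ) : (PP n).Infinite := by
  refine Set.infinite_of_injective_forall_mem (f := fun m => Nat.pair n m) ?_ ?_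
  · intro a b h
    simpa using h
  · intro m
    simp [PP]

theorem PP_disj {m n : ℕ} (h : m ≠ n) : (PP m ∩ PP n).Finite := by
  have : PP m ∩ PP n = ∅ := by
    ext x
    simp only [PP, Set.mem_inter_iff, Set.mem_ofPred_eq, Set.mem_empty_iff_false, iff_false,
      not_and]
    intro h1 h2
    exact h (h1.symm.trans h2)
  rw [this]; exact Set.finite_empty

variable {I : Type} [LinearOrder I] [WellFoundedLT I]

/-- the requirements on the `i`-th member -/
def Cond (i : I) (prev : ∀ j, j < i → Set ℕ) (C : Set ℕ) : Prop :=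
  C.Infinite ∧ (∀ n, (C ∩ PP n).Finite) ∧ (∀ j (hj : j < i), (C ∩ prev j hj).Finite) ∧
    ∀ k : ℕ, {j : Iio i | C ∩ prev j.1 j.2 ⊆ Iio k}.Finite

open Classical in
/-- recursion step -/
noncomputable def stepA (i : I) (prev : ∀ j, j < i → Set ℕ) : Set ℕ :=
  if h : ∃ C, Cond i prev C then Classical.choose h else ∅

variable (I) in
/-- the Luzin family -/
noncomputable def luz : I → Set ℕ := (wellFounded_lt (α := I)).fix stepA

theorem luz_eq (i : I) : luz I i = stepA i fun j _ => luz I j := by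
  unfold luz
  exact WellFounded.fix_eq _ _ _

theorem luz_cond (hI : ∀ i : I, (Iio i).Countable) (i : I) :
    Cond i (fun j _ => luz I j) (luz I i) := by
  induction i using WellFoundedLT.induction with
  | ind i ih =>
    have hc : Countable (Iio i) := (hI i).to_subtype
    let B : ℕ ⊕ Iio i → Set ℕ := Sum.elim PP fun j => luz I j.1
    have h1 : ∀ j, (B j).Infinite := by
      rintro (n | j)
      · exact PP_infinite n
      · exact (ih j.1 j.2).1
    have h2 : ∀ a b, a ≠ b → (B a ∩ B b).Finite := by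
      rintro (n | j) (m | l) hab
      · exact PP_disj fun h => hab (by rw [h])
      · rw [Set.inter_comm]; exact (ih l.1 l.2).2.1 n
      · exact (ih j.1 j.2).2.1 m
      · have hne : j.1 ≠ l.1 := fun h => hab (by rw [Subtype.ext h])
        rcases lt_or_gt_of_ne hne with h | h
        · rw [Set.inter_comm]; exact (ih l.1 l.2).2.2.1 j.1 h
        · exact (ih j.1 j.2).2.2.1 l.1 h
    obtain ⟨C, hC1, hC2, hC3⟩ := ext_lemma B h1 h2
    have hex : ∃ C, Cond i (fun j _ => luz I j) C := by
      refine ⟨C, hC1, fun n => hC2 (Sum.inl n), fun j hj => hC2 (Sum.inr ⟨j, hj⟩), fun k => ?_⟩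
      refine Set.Finite.preimage (f := (Sum.inr : Iio i → ℕ ⊕ Iio i)) ?_ (hC3 k)
      exact Sum.inr_injective.injOn
    rw [luz_eq]
    unfold stepA
    rw [dif_pos hex]
    exact Classical.choose_spec hex

theorem luz_infinite (hI : ∀ i : I, (Iio i).Countable) (i : I) : (luz I i).Infinite :=
  (luz_cond hI i).1

theorem luz_ad (hI : ∀ i : I, (Iio i).Countable) {i j : I} (h : i ≠ j) :
    (luz I i ∩ luz I j).Finite := by
  rcases lt_or_gt_of_ne h with h | h
  · rw [Set.inter_comm]; exact (luz_cond hI j).2.2.1 i h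
  · exact (luz_cond hI i).2.2.1 j h

theorem luz_injective (hI : ∀ i : I, (Iio i).Countable) : Function.Injective (luz I) := by
  intro i j h
  by_contra hne
  have h1 := luz_ad hI hne
  rw [h, Set.inter_self] at h1
  exact luz_infinite hI j h1

/-- the Luzin property -/
theorem luz_luzin (hI : ∀ i : I, (Iio i).Countable) (i : I) (k : ℕ) :
    {j | j < i ∧ luz I i ∩ luz I j ⊆ Iio k}.Finite := by
  have h := (luz_cond hI i).2.2.2 k
  refine (h.image Subtype.val).subset ?_
  rintro j ⟨hj, hj2⟩
  exact ⟨⟨j, hj⟩, hj2, rfl⟩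

end Pool.Agent.StarRoth
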