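import Mathlib
import Pool.Agent.Lib.MP_a1c723_lc.Luzin

/-!
Luzin families give star-Rothberger spaces below the dominating number, and the converse.
-/

namespace Pool.Agent.StarRoth

open Cardinal Set

theorem not_dominating {F : Set (ℕ → ℕ)} (hF : #F < dNum) :
    ∃ h : ℕ → ℕ, ∀ f ∈ F, {n | f n < h n}.Infinite := by
  by_contra hcon
  push Not at hcon
  apply absurd hF
  rw [not_lt]
  refine csInf_le' ⟨F, rfl, fun g => ?_⟩
  obtain ⟨f, hf, hfin⟩ := hcon g
  exact ⟨f, hf, by simpa [Set.not_infinite] using hfin⟩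

variable {I : Type} [LinearOrder I] [WellFoundedLT I]

theorem exists_bound (hI : ∀ i : I, (Iio i).Countable) [Uncountable I] {S : Set I}
    (hS : S.Countable) : ∃ δ, ∀ s ∈ S, s < δ := by
  by_contra hcon
  push Not at hcon
  have h1 : (Set.univ : Set I) ⊆ ⋃ s ∈ S, Iic s := by
    intro δ _
    obtain ⟨s, hs, hδ⟩ := hcon δ
    simp only [Set.mem_iUnion]
    exact ⟨s, hs, hδ⟩
  have h2 : (⋃ s ∈ S, Iic s).Countable := by
    refine hS.biUnion fun s _ => ?_
    have : Iic s = Iio s ∪ {s} := by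
      ext x; simp [le_iff_lt_or_eq]
    rw [this]
    exact (hI s).union (Set.countable_singleton s)
  exact Set.not_countable_univ (h2.mono h1)

theorem starRothberger_luz (hI : ∀ i : I, (Iio i).Countable) [Uncountable I]
    (hd : #I < dNum) : StarRothberger (Psi (range (luz I))) := by
  classical
  intro 𝒰 h𝒰
  have hcov : ∀ n (x : Psi (range (luz I))), ∃ W ∈ 𝒰 n, x ∈ W := by
    intro n x
    have : x ∈ ⋃₀ 𝒰 n := by rw [(h𝒰 n).2]; trivial
    exact this
  choose W hW1 hW2 using hcov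
  let pt : I → Psi (range (luz I)) := fun i => Psi.mem ⟨luz I i, mem_range_self i⟩
  let V : ℕ → I → Set (Psi (range (luz I))) := fun n i => W n (pt i)
  have hf : ∀ n i, ∃ k : ℕ, ∀ x ∈ luz I i, k ≤ x → Psi.nat x ∈ V n i := by
    intro n i
    have h1 := (h𝒰 n).1 (V n i) (hW1 n _) ⟨luz I i, mem_range_self i⟩ (hW2 n _)
    obtain ⟨b, hb⟩ := h1.bddAbove
    refine ⟨b + 1, fun x hx hbx => ?_⟩
    by_contra hcon
    have := hb (a := x) ⟨hx, hcon⟩
    omega
  choose f hf using hf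
  have hk : ∀ n, ∃ k, ¬ {i | f n i = k}.Countable := by
    intro n
    by_contra hcon
    push Not at hcon
    have h1 : (Set.univ : Set I) ⊆ ⋃ k, {i | f n i = k} := fun i _ => by simp
    exact Set.not_countable_univ ((Set.countable_iUnion hcon).mono h1)
  choose k hk using hk
  have hT : ∀ n, ∃ T : ℕ → I, Function.Injective T ∧ ∀ j, f n (T j) = k n := by
    intro n
    have h1 : {i | f n i = k n}.Infinite := fun h => hk n h.countable
    refine ⟨fun j => (h1.natEmbedding _ j : I), ?_, fun j => (h1.natEmbedding _ j).2⟩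
    intro a b hab
    exact (h1.natEmbedding _).injective (Subtype.ext hab)
  choose T hTi hTk using hT
  obtain ⟨δ, hδ⟩ := exists_bound hI (S := ⋃ n, range (T n))
    (Set.countable_iUnion fun n => Set.countable_range _)
  have hδ' : ∀ n j, T n j < δ := fun n j => hδ _ (Set.mem_iUnion.2 ⟨n, mem_range_self j⟩)
  have hg : ∀ i, δ ≤ i → ∀ n, ∃ N, ∀ j ≥ N, ∃ x, x ∈ luz I i ∧ x ∈ luz I (T n j) ∧
      f n i ≤ x ∧ k n ≤ x := by
    intro i hi n
    have h1 := luz_luzin hI i (max (f n i) (k n))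
    have h2 := h1.preimage (f := T n) (hTi n).injOn
    obtain ⟨b, hb⟩ := h2.bddAbove
    refine ⟨b + 1, fun j hj => ?_⟩
    have h3 : j ∉ T n ⁻¹' {j | j < i ∧ luz I i ∩ luz I j ⊆ Iio (max (f n i) (k n))} := by
      intro h
      have := hb h
      omega
    have h4 : ¬ (luz I i ∩ luz I (T n j) ⊆ Iio (max (f n i) (k n))) := fun h =>
      h3 ⟨(hδ' n j).trans_le hi, h⟩
    rw [Set.not_subset] at h4
    obtain ⟨x, ⟨hx1, hx2⟩, hx3⟩ := h4
    have h5 : max (f n i) (k n) ≤ x := not_lt.1 hx3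
    exact ⟨x, hx1, hx2, (le_max_left _ _).trans h5, (le_max_right _ _).trans h5⟩
  choose! g hg using hg
  obtain ⟨h, hh⟩ : ∃ h : ℕ → ℕ, ∀ i, δ ≤ i → ∃ m, g i (2 * m) ≤ h m := by
    have h1 : #(range fun (i : I) (m : ℕ) => g i (2 * m)) < dNum := mk_range_le.trans_lt hd
    obtain ⟨h, hh⟩ := not_dominating h1
    refine ⟨h, fun i _ => ?_⟩
    obtain ⟨m, hm⟩ := (hh _ ⟨i, rfl⟩).nonempty
    exact ⟨m, le_of_lt hm⟩
  -- countable leftovers
  let L : Set (Psi (range (luz I))) := range Psi.nat ∪ pt '' Iio δ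
  have hLc : L.Countable := (Set.countable_range _).union ((hI δ).image _)
  obtain ⟨y, hy⟩ := hLc.exists_eq_range ⟨Psi.nat 0, Or.inl ⟨0, rfl⟩⟩
  let U : ℕ → Set (Psi (range (luz I))) := fun n =>
    if n % 2 = 0 then V n (T n (h (n / 2))) else W n (y (n / 2))
  have hU : ∀ n, U n ∈ 𝒰 n := by
    intro n
    change (if n % 2 = 0 then V n (T n (h (n / 2))) else W n (y (n / 2))) ∈ 𝒰 n
    split_ifs
    · exact hW1 _ _
    · exact hW1 _ _
  refine ⟨U, hU, ?_⟩
  have hL : ∀ x ∈ L, ∃ n, x ∈ star (U n) (𝒰 n) := by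
    intro x hx
    rw [hy] at hx
    obtain ⟨m, rfl⟩ := hx
    refine ⟨2 * m + 1, ?_⟩
    have hUm : U (2 * m + 1) = W (2 * m + 1) (y m) := by
      change (if (2 * m + 1) % 2 = 0 then _ else W (2 * m + 1) (y ((2 * m + 1) / 2))) = _
      rw [if_neg (by omega), show (2 * m + 1) / 2 = m by omega]
    have hmem : y m ∈ U (2 * m + 1) := by rw [hUm]; exact hW2 _ _
    exact ⟨U (2 * m + 1), ⟨hU _, ⟨y m, hmem, hmem⟩⟩, hmem⟩
  refine Set.eq_univ_of_forall fun x => ?_
  rw [Set.mem_iUnion]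
  rcases x with x | ⟨a, i, rfl⟩
  · exact hL _ (Or.inl ⟨x, rfl⟩)
  · rcases lt_or_ge i δ with hi | hi
    · exact hL _ (Or.inr ⟨i, hi, rfl⟩)
    · obtain ⟨m, hm⟩ := hh i hi
      refine ⟨2 * m, V (2 * m) i, ⟨hW1 _ _, ?_⟩, hW2 _ _⟩
      have hUm : U (2 * m) = V (2 * m) (T (2 * m) (h m)) := by
        change (if (2 * m) % 2 = 0 then V (2 * m) (T (2 * m) (h (2 * m / 2))) else _) = _
        rw [if_pos (by omega), show 2 * m / 2 = m by omega]
      obtain ⟨x, hx1, hx2, hx3, hx4⟩ := hg i hi (2 * m) (h m) hm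
      refine ⟨Psi.nat x, hf _ _ x hx1 hx3, ?_⟩
      rw [hUm]
      exact hf _ _ x hx2 (by rw [hTk]; exact hx4)

end Pool.Agent.StarRoth
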