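import Mathlib
import Pool.Agent.Lib.MP_a1c723_lc.Main

/-!
The cardinals, and the converse direction.
-/

namespace Pool.Agent.StarRoth

open Cardinal Set

/-- a well-ordered type of order type `ω₁` -/
abbrev W1 : Type := (ℵ₁ : Cardinal.{0}).ord.ToType

theorem mk_W1 : #W1 = ℵ₁ := by
  rw [mk_toType, card_ord]

theorem ctbl_iff {α : Type} (s : Set α) : s.Countable ↔ #s < ℵ₁ := by
  rw [← Cardinal.le_aleph0_iff_set_countable, ← succ_aleph0, Order.lt_succ_iff]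

theorem W1_Iio (i : W1) : (Iio i).Countable := by
  rw [ctbl_iff]
  have h : Cardinal.ord #W1 = Ordinal.type (α := W1) (· < ·) := by
    rw [mk_W1, Ordinal.type_toType]
  have := mk_Iio_lt i h
  rwa [mk_W1] at this

instance : Uncountable W1 := by
  rw [← aleph0_lt_mk_iff, mk_W1]
  exact aleph0_lt_aleph_one

theorem not_countable_of_aleph1 {X : Type} (h : ℵ₁ ≤ #X) {s : Set X} (hs : s.Countable) :
    ∃ x, x ∉ s := by
  by_contra hcon
  push Not at hcon
  have h1 : s = Set.univ := Set.eq_univ_of_forall hcon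
  have h2 : #X < ℵ₁ := by
    have := (ctbl_iff s).1 hs
    rwa [h1, mk_univ] at this
  exact absurd h (not_le.2 h2)

theorem cofCtbl_aleph1 : cofCtbl ℵ₁ = ℵ₁ := by
  apply le_antisymm
  · obtain ⟨e⟩ : Nonempty ((ℵ₁ : Cardinal.{0}).out ≃ W1) := by
      rw [← Cardinal.eq, mk_out, mk_W1]
    have h1 : cofCtbl ℵ₁ ≤ #(range fun i : W1 => e ⁻¹' Iio i) := by
      refine csInf_le' ⟨_, rfl, ?_, ?_⟩
      · rintro _ ⟨i, rfl⟩
        exact (W1_Iio i).preimage e.injective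
      · intro t ht
        obtain ⟨δ, hδ⟩ := exists_bound W1_Iio (ht.image e)
        exact ⟨_, ⟨δ, rfl⟩, fun x hx => hδ _ ⟨x, hx, rfl⟩⟩
    refine h1.trans (mk_range_le.trans ?_)
    rw [mk_W1]
  · refine le_csInf ?_ ?_
    · exact ⟨_, {s | s.Countable}, rfl, fun s hs => hs, fun t ht => ⟨t, ht, subset_rfl⟩⟩
    · rintro μ ⟨S, rfl, hS1, hS2⟩
      by_contra hcon
      rw [not_le, ← ctbl_iff] at hcon
      have h1 : (⋃ s ∈ S, s).Countable := hcon.biUnion hS1
      obtain ⟨x, hx⟩ := not_countable_of_aleph1 (X := (ℵ₁ : Cardinal.{0}).out)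
        (by rw [mk_out]) h1
      obtain ⟨s, hs, hxs⟩ := hS2 {x} (Set.countable_singleton x)
      apply hx
      simp only [Set.mem_iUnion]
      exact ⟨s, hs, hxs rfl⟩

theorem aleph1_le_covM : ℵ₁ ≤ covM := by
  refine le_csInf ?_ ?_
  · refine ⟨_, Set.univ, rfl, fun g => ⟨fun n => g n + 1, trivial, ?_⟩⟩
    simp
  · rintro μ ⟨F, rfl, hF⟩
    by_contra hcon
    rw [not_le, ← ctbl_iff] at hcon
    rcases F.eq_empty_or_nonempty with h | h
    · obtain ⟨f, hf, -⟩ := hF fun n => n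
      rw [h] at hf
      exact hf
    · obtain ⟨e, he⟩ := hcon.exists_eq_range h
      obtain ⟨f, hf, hfin⟩ := hF fun n => e n.unpair.1 n
      rw [he] at hf
      obtain ⟨i, rfl⟩ := hf
      have h1 : {n | e i n = e n.unpair.1 n}.Infinite := by
        refine Set.infinite_of_injective_forall_mem (f := fun m => Nat.pair i m) ?_ ?_
        · intro a b hab
          simpa using hab
        · intro m
          simp
      exact h1 hfin

theorem dNum_spec : ∃ F : Set (ℕ → ℕ), #F = dNum ∧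
    ∀ g : ℕ → ℕ, ∃ f ∈ F, {n | f n < g n}.Finite := by
  have h : dNum ∈ {κ | ∃ F : Set (ℕ → ℕ), #F = κ ∧
      ∀ g : ℕ → ℕ, ∃ f ∈ F, {n | f n < g n}.Finite} := by
    refine csInf_mem ⟨_, Set.univ, rfl, fun g => ⟨g, trivial, ?_⟩⟩
    simp
  exact h

theorem cofCtbl_spec (κ : Cardinal.{0}) : ∃ S : Set (Set κ.out), #S = cofCtbl κ ∧
    (∀ s ∈ S, s.Countable) ∧ ∀ t : Set κ.out, t.Countable → ∃ s ∈ S, t ⊆ s := by
  have h : cofCtbl κ ∈ {μ | ∃ S : Set (Set κ.out), #S = μ ∧ (∀ s ∈ S, s.Countable) ∧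
    ∀ t : Set κ.out, t.Countable → ∃ s ∈ S, t ⊆ s} := by
    refine csInf_mem ?_
    exact ⟨_, {s | s.Countable}, rfl, fun s hs => hs, fun t ht => ⟨t, ht, subset_rfl⟩⟩
  exact h

theorem nat_ne_mem {A : Set (Set ℕ)} (n : ℕ) (a : A) : (Psi.nat n : Psi A) ≠ Psi.mem a :=
  Sum.inl_ne_inr

theorem mem_notin_nat {A : Set (Set ℕ)} {n : ℕ} {a : A}
    (h : (Psi.mem a : Psi A) ∈ ({Psi.nat n} : Set (Psi A))) : False :=
  nat_ne_mem n a (Set.mem_singleton_iff.1 h).symm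

theorem not_starRothberger {A : Set (Set ℕ)} (hA : IsAD A) {κ : Cardinal.{0}} (hκ : ℵ₁ ≤ κ)
    (hAκ : #A = κ) (hcof : cofCtbl κ ≤ κ) (hd : dNum ≤ κ) : ¬ StarRothberger (Psi A) := by
  classical
  intro hSR
  obtain ⟨D, hDc, hD⟩ := dNum_spec
  obtain ⟨S, hSc, hS1, hS2⟩ := cofCtbl_spec κ
  obtain ⟨e⟩ : Nonempty (A ≃ κ.out) := by
    rw [← Cardinal.eq, mk_out, hAκ]
  have hκ0 : ℵ₀ ≤ κ := (aleph0_le_aleph 1).trans hκ
  -- injection from the index set
  have hcard : #((S × (D × ℕ)) × W1) ≤ #A := by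
    rw [hAκ, mk_prod, mk_prod, mk_prod, mk_W1, hSc, hDc, mk_nat]
    simp only [lift_id]
    calc cofCtbl κ * (dNum * ℵ₀) * ℵ₁ ≤ κ * (κ * κ) * κ := by gcongr
      _ = κ := by simp [mul_eq_self hκ0]
  obtain ⟨ι, hι⟩ : ∃ ι : (S × (D × ℕ)) × W1 → A, Function.Injective ι := by
    obtain ⟨f⟩ := (Cardinal.le_def _ _).1 hcard
    exact ⟨f, f.injective⟩
  -- enumerations of the countable sets
  have hne : Nonempty A := by
    rw [← mk_ne_zero_iff, hAκ]
    exact (aleph0_pos.trans_le hκ0).ne'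
  have hB : ∀ s : S, ∃ B : ℕ → A, ∀ a : A, e a ∈ (s : Set κ.out) → ∃ i, B i = a := by
    intro s
    have h1 : (e ⁻¹' (s : Set κ.out)).Countable := (hS1 s s.2).preimage e.injective
    rcases (e ⁻¹' (s : Set κ.out)).eq_empty_or_nonempty with h | h
    · refine ⟨fun _ => Classical.choice hne, fun a ha => ?_⟩
      have : a ∈ (e ⁻¹' (s : Set κ.out)) := ha
      rw [h] at this
      exact this.elim
    · obtain ⟨B, hB⟩ := h1.exists_eq_range h
      refine ⟨B, fun a ha => ?_⟩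
      have : a ∈ (e ⁻¹' (s : Set κ.out)) := ha
      rw [hB] at this
      exact this
  choose B hB using hB
  -- the diagonal members
  have hφ : ∀ p : S × (D × ℕ), ∃ ξ : W1, ι (p, ξ) ∉ range (B p.1) := by
    intro p
    have h1 : ((fun ξ => ι (p, ξ)) ⁻¹' range (B p.1)).Countable := by
      refine (Set.countable_range _).preimage ?_
      intro a b hab
      have := hι hab
      simpa using this
    exact not_countable_of_aleph1 (by rw [mk_W1]) h1
  choose ξ hξ using hφ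
  let φ : S × (D × ℕ) → A := fun p => ι (p, ξ p)
  have hφi : Function.Injective φ := by
    intro p q h
    have := hι h
    exact congrArg Prod.fst this
  have hφB : ∀ p i, B p.1 i ≠ φ p := fun p i h => hξ p ⟨i, h⟩
  -- the assignment
  have hb : ∀ (p : S × (D × ℕ)) (n : ℕ), ∃ b : ℕ,
      (∀ i ≤ (p.2.1 : ℕ → ℕ) n + p.2.2, ∀ x ∈ (φ p : Set ℕ) ∩ (B p.1 i : Set ℕ), x < b) ∧
        (p.2.1 : ℕ → ℕ) n + p.2.2 < b := by
    intro p n
    have h1 : (⋃ i ∈ Finset.range ((p.2.1 : ℕ → ℕ) n + p.2.2 + 1),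
        (φ p : Set ℕ) ∩ (B p.1 i : Set ℕ)).Finite := by
      refine Set.Finite.biUnion (Finset.finite_toSet _) fun i _ => ?_
      refine hA.2 _ (φ p).2 _ (B p.1 i).2 fun h => hφB p i (Subtype.ext h.symm)
    obtain ⟨c, hc⟩ := h1.bddAbove
    refine ⟨max (c + 1) ((p.2.1 : ℕ → ℕ) n + p.2.2 + 1), fun i hi x hx => ?_, ?_⟩
    · have : x ≤ c := hc (by
        simp only [Set.mem_iUnion]
        exact ⟨i, Finset.mem_range.2 (Nat.lt_succ_of_le hi), hx⟩)
      exact lt_of_lt_of_le (Nat.lt_succ_of_le this) (le_max_left _ _)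
    · exact lt_of_lt_of_le (Nat.lt_succ_self _) (le_max_right _ _)
  choose b hb1 hb2 using hb
  let f : A → ℕ → ℕ := fun a n => if h : ∃ p, φ p = a then b (Classical.choose h) n else 0
  have hf : ∀ p n, f (φ p) n = b p n := by
    intro p n
    have h : ∃ q, φ q = φ p := ⟨p, rfl⟩
    change (if h : ∃ q, φ q = φ p then b (Classical.choose h) n else 0) = b p n
    rw [dif_pos h, hφi (Classical.choose_spec h)]
  -- the covers
  let Nb : A → ℕ → Set (Psi A) := fun a n =>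
    {Psi.mem a} ∪ Psi.nat '' {x | x ∈ (a : Set ℕ) ∧ f a n ≤ x}
  let 𝒰 : ℕ → Set (Set (Psi A)) := fun n =>
    {W | (∃ a, W = Nb a n) ∨ ∃ m : ℕ, W = {Psi.nat m}}
  have hmemNb : ∀ a a' n, Psi.mem a' ∈ Nb a n → a' = a := by
    rintro a a' n (h | ⟨x, -, h⟩)
    · exact Sum.inr_injective h
    · exact (nat_ne_mem _ _ h).elim
  have hnatNb : ∀ a x n, Psi.nat x ∈ Nb a n → x ∈ (a : Set ℕ) ∧ f a n ≤ x := by
    rintro a x n (h | ⟨y, hy, h⟩)
    · exact (nat_ne_mem _ _ h).elim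
    · have : y = x := Sum.inl_injective h
      rw [← this]; exact hy
  have h𝒰 : ∀ n, IsOpenCover (𝒰 n) := by
    intro n
    refine ⟨?_, ?_⟩
    · rintro W (⟨a, rfl⟩ | ⟨m, rfl⟩)
      · intro a' ha'
        have := hmemNb _ _ _ ha'
        subst this
        refine (Set.finite_Iio (f a' n)).subset ?_
        rintro x ⟨hx1, hx2⟩
        by_contra hcon
        exact hx2 (Or.inr ⟨x, ⟨hx1, not_lt.1 hcon⟩, rfl⟩)
      · intro a ha
        exact (mem_notin_nat ha).elim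
    · refine Set.eq_univ_of_forall fun x => ?_
      rcases x with m | a
      · exact ⟨{Psi.nat m}, Or.inr ⟨m, rfl⟩, rfl⟩
      · exact ⟨Nb a n, Or.inl ⟨a, rfl⟩, Or.inl rfl⟩
  obtain ⟨U, hU, hcov⟩ := hSR 𝒰 h𝒰
  -- codes of the chosen sets
  have hcode : ∀ n, ∃ (a : A) (m : ℕ), U n = Nb a n ∨ U n = {Psi.nat m} := by
    intro n
    rcases hU n with ⟨a, ha⟩ | ⟨m, hm⟩
    · exact ⟨a, 0, Or.inl ha⟩
    · exact ⟨Classical.choice hne, m, Or.inr hm⟩
  choose a m ham using hcode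
  obtain ⟨s, hs, hts⟩ := hS2 (e '' range a) ((Set.countable_range a).image e)
  have hidx : ∀ n, ∃ i, B ⟨s, hs⟩ i = a n := fun n =>
    hB ⟨s, hs⟩ (a n) (hts ⟨a n, mem_range_self n, rfl⟩)
  choose i hi using hidx
  obtain ⟨g, hg, hfin⟩ := hD fun n => max (i n) (m n)
  obtain ⟨c, hc⟩ : ∃ c : ℕ, ∀ n, max (i n) (m n) ≤ g n + c := by
    refine ⟨hfin.toFinset.sup fun n => max (i n) (m n), fun n => ?_⟩
    by_cases h : g n < max (i n) (m n)
    · have : n ∈ hfin.toFinset := by simpa using h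
      exact (Finset.le_sup (f := fun n => max (i n) (m n)) this).trans (Nat.le_add_left _ _)
    · exact (not_lt.1 h).trans (Nat.le_add_right _ _)
  let p : S × (D × ℕ) := (⟨s, hs⟩, (⟨g, hg⟩, c))
  have hmem : (Psi.mem (φ p) : Psi A) ∈ ⋃ n, star (U n) (𝒰 n) := by rw [hcov]; trivial
  rw [Set.mem_iUnion] at hmem
  obtain ⟨n, V, ⟨hV, z, hzV, hzU⟩, hpV⟩ := hmem
  have hVeq : V = Nb (φ p) n := by
    rcases hV with ⟨a', rfl⟩ | ⟨m', rfl⟩
    · rw [hmemNb _ _ _ hpV]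
    · exact (mem_notin_nat hpV).elim
  subst hVeq
  have hb1' := hb1 p n
  have hb2' := hb2 p n
  have hcn : max (i n) (m n) ≤ (p.2.1 : ℕ → ℕ) n + p.2.2 := hc n
  rcases ham n with h | h
  · rw [h] at hzU
    rcases z with x | a'
    · obtain ⟨h1, h2⟩ := hnatNb _ _ _ hzV
      obtain ⟨h3, -⟩ := hnatNb _ _ _ hzU
      rw [hf] at h2
      have h4 := hb1' (i n) ((le_max_left _ _).trans hcn) x ⟨h1, by
        change x ∈ (B ⟨s, hs⟩ (i n) : Set ℕ)
        rw [hi]; exact h3⟩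
      omega
    · have h1 : a' = φ p := hmemNb _ _ _ hzV
      have h2 : a' = a n := hmemNb _ _ _ hzU
      exact hφB p (i n) (by
        change B ⟨s, hs⟩ (i n) = φ p
        rw [hi, ← h2, h1])
  · rw [h] at hzU
    have hz : z = Psi.nat (m n) := hzU
    rw [hz] at hzV
    obtain ⟨-, h2⟩ := hnatNb _ _ _ hzV
    rw [hf] at h2
    have h5 := (le_max_right (i n) (m n)).trans hcn
    omega

end Pool.Agent.StarRoth
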